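import Pool.Agent.Helper65.KH.Goals

/-! Packet PB of project KH: grouping a sum over words. -/

set_option autoImplicit false

namespace Pool.Agent.Helper96.KH.PB

open Pool.Agent.Helper65.KH

theorem cardz (ι : Type) [Fintype ι] [DecidableEq ι] (D : ℕ) (J : Finset ι) :
    ((Finset.univ : Finset (ι → Fin (D + 1))).filter
      (fun φ => (Finset.univ.filter fun j => φ j = 0) = J)).card = D ^ (Fintype.card ι - J.card) := by
  have h1 : ((Finset.univ : Finset (ι → Fin (D + 1))).filter
      (fun φ => (Finset.univ.filter fun j => φ j = 0) = J)) =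
      Fintype.piFinset (fun j => if j ∈ J then ({0} : Finset (Fin (D + 1))) else {0}ᶜ) := by
    ext φ
    simp only [Finset.mem_filter, Finset.mem_univ, true_and, Fintype.mem_piFinset]
    constructor
    · intro h j
      have hj : (φ j = 0) ↔ j ∈ J := by
        rw [← h]; simp
      by_cases hJ : j ∈ J
      · simp [hJ, hj.2 hJ]
      · simp only [hJ, if_false, Finset.mem_compl, Finset.mem_singleton]
        intro h0
        exact hJ (hj.1 h0)
    · intro h
      ext j
      simp only [Finset.mem_filter, Finset.mem_univ, true_and]
      have hj := h j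
      by_cases hJ : j ∈ J
      · simp only [hJ, if_true, Finset.mem_singleton] at hj
        simp [hJ, hj]
      · simp only [hJ, if_false, Finset.mem_compl, Finset.mem_singleton] at hj
        simp [hJ, hj]
  rw [h1, Fintype.card_piFinset]
  have h2 : ∀ j, (if j ∈ J then ({0} : Finset (Fin (D + 1))) else {0}ᶜ).card =
      if j ∈ J then 1 else D := by
    intro j
    split_ifs
    · simp
    · simp [Finset.card_compl]
  simp only [h2]
  rw [Finset.prod_ite]
  simp only [Finset.prod_const_one, one_mul, Finset.prod_const]
  congr 1
  have h3 : (Finset.univ.filter fun j => j ∉ J) = Jᶜ := by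
    ext j; simp
  rw [h3, Finset.card_compl]

theorem t : S_PB := by
  intro ι _ _ B D F
  have h1 : ∀ φ : ι → Fin (D + 1),
      (if ∀ j, j ∈ B → φ j = 0 then F (Finset.univ.filter fun j => φ j = 0) else 0) =
      (fun J : Finset ι => if B ⊆ J then F J else 0) (Finset.univ.filter fun j => φ j = 0) := by
    intro φ
    have : (∀ j, j ∈ B → φ j = 0) ↔ B ⊆ (Finset.univ.filter fun j => φ j = 0) := by
      constructor
      · intro h j hj
        simp [h j hj]
      · intro h j hj
        have := h hj
        simpa using this
    simp only [this]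
  rw [Finset.sum_congr rfl fun φ _ => h1 φ]
  rw [← Finset.sum_fiberwise (Finset.univ : Finset (ι → Fin (D + 1)))
    (fun φ => (Finset.univ.filter fun j => φ j = 0)), Finset.sum_filter]
  apply Finset.sum_congr rfl
  intro J _
  have h2 : ∀ φ ∈ (Finset.univ : Finset (ι → Fin (D + 1))).filter
      (fun φ => (Finset.univ.filter fun j => φ j = 0) = J),
      (fun J : Finset ι => if B ⊆ J then F J else 0) (Finset.univ.filter fun j => φ j = 0) =
      if B ⊆ J then F J else 0 := by
    intro φ hφ
    rw [(Finset.mem_filter.1 hφ).2]
  rw [Finset.sum_congr rfl h2, Finset.sum_const, cardz, smul_eq_mul]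
  split_ifs <;> simp

end Pool.Agent.Helper96.KH.PB
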